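import Mathlib

/-!
# Alternating orderings of points and bipartitions

`n` points and `n` bipartitions of the points such that every `k` points are split by at least `k - 1`
of the bipartitions have an alternating ordering.
-/

set_option autoImplicit false

namespace Pool.Agent.Q288.Alt

open Finset Equiv

/-- Multiplication with a transposition merges two cycles. -/
theorem merge {K : Type} [DecidableEq K] [Finite K] (r : Perm K) (x y : K)
    (hxy : ¬ r.SameCycle x y) :
    (∀ z, r.SameCycle x z → (swap x y * r).SameCycle x z) ∧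
      (∀ z, r.SameCycle y z → (swap x y * r).SameCycle x z) := by
  have hA : ∀ u w : K, (u = x ∧ w = y ∨ u = y ∧ w = x) → ∀ k : ℕ,
      (swap x y * r).SameCycle u ((r ^ k) u) := by
    intro u w huw k
    induction k with
    | zero => exact Perm.SameCycle.refl _ _
    | succ k ih =>
      have h1 : (r ^ (k + 1)) u = r ((r ^ k) u) := by rw [pow_succ', Perm.mul_apply]
      rw [h1]
      by_cases hu : r ((r ^ k) u) = u
      · rw [hu]
      · have hs : r.SameCycle u (r ((r ^ k) u)) := ⟨k + 1, by
          rw [← h1]; norm_cast⟩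
        have hw : r ((r ^ k) u) ≠ w := by
          intro h
          rw [h] at hs
          rcases huw with ⟨rfl, rfl⟩ | ⟨rfl, rfl⟩
          · exact hxy hs
          · exact hxy hs.symm
        have h2 : (swap x y * r) ((r ^ k) u) = r ((r ^ k) u) := by
          rw [Perm.mul_apply]
          apply swap_apply_of_ne_of_ne
          · rcases huw with ⟨rfl, rfl⟩ | ⟨rfl, rfl⟩
            · exact hu
            · exact hw
          · rcases huw with ⟨rfl, rfl⟩ | ⟨rfl, rfl⟩
            · exact hw
            · exact hu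
        rw [← h2]
        exact Perm.sameCycle_apply_right.2 ih
  have hB : ∀ u w : K, (u = x ∧ w = y ∨ u = y ∧ w = x) → ∀ z, r.SameCycle u z →
      (swap x y * r).SameCycle u z := by
    intro u w huw z hz
    obtain ⟨k, hk⟩ := hz.exists_nat_pow_eq
    rw [← hk]
    exact hA u w huw k
  have hC : (swap x y * r).SameCycle x y := by
    have h1 : r.SameCycle x (r.symm x) := by
      have h0 := Perm.sameCycle_apply_right (f := r) (x := x) (y := r.symm x)
      rw [Equiv.apply_symm_apply] at h0
      exact h0.1 (Perm.SameCycle.refl _ _)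
    have h2 := hB x y (Or.inl ⟨rfl, rfl⟩) _ h1
    have h3 : (swap x y * r) (r.symm x) = y := by
      rw [Perm.mul_apply, Equiv.apply_symm_apply, swap_apply_left]
    have h4 := Perm.sameCycle_apply_right.2 h2
    rw [h3] at h4
    exact h4
  exact ⟨hB x y (Or.inl ⟨rfl, rfl⟩), fun z hz => hC.trans (hB y x (Or.inr ⟨rfl, rfl⟩) z hz)⟩

section

variable {K V : Type} [Fintype K] [DecidableEq K]

/-- The permutation of the lines given by two bijections to the points. -/
def rho (f g : K ≃ V) : Perm K := g.trans f.symm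

theorem f_rho (f g : K ≃ V) (l : K) : f (rho f g l) = g l := by
  simp [rho]

open scoped Classical in
/-- The cycle of `l0`. -/
noncomputable def cyc (l0 : K) (r : Perm K) : Finset K := univ.filter fun l => r.SameCycle l0 l

open scoped Classical in
theorem cyc_lt (l0 : K) (r : Perm K) (x y : K) (hx : r.SameCycle l0 x) (hy : ¬ r.SameCycle l0 y) :
    (cyc l0 r).card < (cyc l0 (swap x y * r)).card := by
  have hxy : ¬ r.SameCycle x y := fun h => hy (hx.trans h)
  obtain ⟨h1, h2⟩ := merge r x y hxy
  have h0 : (swap x y * r).SameCycle x l0 := h1 _ hx.symm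
  apply Finset.card_lt_card
  rw [Finset.ssubset_iff_of_subset]
  · refine ⟨y, ?_, ?_⟩
    · simp only [cyc, mem_filter, mem_univ, true_and]
      exact h0.symm.trans (h2 _ (Perm.SameCycle.refl _ _))
    · simp only [cyc, mem_filter, mem_univ, true_and]
      exact hy
  · intro z hz
    simp only [cyc, mem_filter, mem_univ, true_and] at hz ⊢
    exact h0.symm.trans (h1 _ (hx.symm.trans hz))

theorem improve (A B : K → V → Prop) (hAB : ∀ l v, A l v ∨ B l v) (l0 : K)
    (hA0 : ∀ v, A l0 v) (hB0 : ∀ v, B l0 v) (f g : K ≃ V) (hf : ∀ l, A l (f l))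
    (hg : ∀ l, B l (g l)) (y0 : K) (hy0 : ¬ (rho f g).SameCycle l0 y0) :
    ∃ f' g' : K ≃ V, (∀ l, A l (f' l)) ∧ (∀ l, B l (g' l)) ∧
      (cyc l0 (rho f g)).card < (cyc l0 (rho f' g')).card := by
  by_contra hcon
  push Not at hcon
  have hfi : ∀ i j, (rho f g).SameCycle l0 i → ¬ (rho f g).SameCycle l0 j →
      ¬ (A j (f i) ∧ A i (f j)) := by
    rintro i j hi hj ⟨h1, h2⟩
    have h3 : ∀ l, A l (((swap i j).trans f) l) := by
      intro l
      rw [Equiv.trans_apply]
      by_cases hli : l = i
      · subst hli; rw [swap_apply_left]; exact h2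
      · by_cases hlj : l = j
        · subst hlj; rw [swap_apply_right]; exact h1
        · rw [swap_apply_of_ne_of_ne hli hlj]; exact hf l
    have h4 : rho ((swap i j).trans f) g = swap i j * rho f g := by
      ext l
      simp [rho, Perm.mul_apply]
    have h5 := hcon _ _ h3 hg
    rw [h4] at h5
    exact absurd (cyc_lt l0 (rho f g) i j hi hj) (not_lt.2 h5)
  have hgi : ∀ i j, (rho f g).SameCycle l0 i → ¬ (rho f g).SameCycle l0 j →
      ¬ (B j (g i) ∧ B i (g j)) := by
    rintro i j hi hj ⟨h1, h2⟩
    have h3 : ∀ l, B l (((swap i j).trans g) l) := by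
      intro l
      rw [Equiv.trans_apply]
      by_cases hli : l = i
      · subst hli; rw [swap_apply_left]; exact h2
      · by_cases hlj : l = j
        · subst hlj; rw [swap_apply_right]; exact h1
        · rw [swap_apply_of_ne_of_ne hli hlj]; exact hg l
    have h4 : rho f ((swap i j).trans g) = swap (rho f g i) (rho f g j) * rho f g := by
      rw [← Equiv.mul_swap_eq_swap_mul]
      ext l
      simp [rho, Perm.mul_apply]
    have h5 := hcon _ _ hf h3
    rw [h4] at h5
    exact absurd (cyc_lt l0 (rho f g) (rho f g i) (rho f g j)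
      (Perm.sameCycle_apply_right.2 hi) (fun h => hj (Perm.sameCycle_apply_right.1 h))) (not_lt.2 h5)
  have key : ∀ t : ℕ, ∀ j, ¬ (rho f g).SameCycle l0 j → A j (f (((rho f g) ^ (t + 1)) l0)) := by
    intro t
    induction t with
    | zero =>
      intro j hj
      rw [zero_add, pow_one, f_rho]
      have h1 : ¬ B j (g l0) := fun h =>
        hgi l0 j (Perm.SameCycle.refl _ _) hj ⟨h, hB0 _⟩
      exact (hAB j (g l0)).resolve_right h1
    | succ t ih =>
      intro j hj
      set i := ((rho f g) ^ (t + 1)) l0 with hi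
      have hic : (rho f g).SameCycle l0 i := ⟨(t + 1 : ℕ), by rw [zpow_natCast]⟩
      have hj1 : ¬ (rho f g).SameCycle l0 (rho f g j) := fun h =>
        hj (Perm.sameCycle_apply_right.1 h)
      have h1 := ih _ hj1
      have h2 : ¬ A i (f (rho f g j)) := fun h => hfi i _ hic hj1 ⟨h1, h⟩
      rw [f_rho] at h2
      have h3 : B i (g j) := (hAB i (g j)).resolve_left h2
      have h4 : ¬ B j (g i) := fun h => hgi i j hic hj ⟨h, h3⟩
      have h5 : A j (g i) := (hAB j (g i)).resolve_right h4
      rw [← f_rho f g i] at h5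
      have h6 : ((rho f g) ^ (t + 1 + 1)) l0 = rho f g i := by
        rw [pow_succ', Perm.mul_apply]
      rw [h6]
      exact h5
  have hpos : 0 < orderOf (rho f g) := orderOf_pos _
  have h1 := key (orderOf (rho f g) - 1) y0 hy0
  rw [Nat.sub_add_cancel hpos, pow_orderOf_eq_one, Perm.one_apply] at h1
  exact hfi l0 y0 (Perm.SameCycle.refl _ _) hy0 ⟨h1, hA0 _⟩

theorem full (A B : K → V → Prop) (hAB : ∀ l v, A l v ∨ B l v) (l0 : K)
    (hA0 : ∀ v, A l0 v) (hB0 : ∀ v, B l0 v) (f g : K ≃ V) (hf : ∀ l, A l (f l))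
    (hg : ∀ l, B l (g l)) :
    ∃ f' g' : K ≃ V, (∀ l, A l (f' l)) ∧ (∀ l, B l (g' l)) ∧
      ∀ l, (rho f' g').SameCycle l0 l := by
  have h : ∀ m : ℕ, ∀ f g : K ≃ V, (∀ l, A l (f l)) → (∀ l, B l (g l)) →
      Fintype.card K ≤ (cyc l0 (rho f g)).card + m →
      ∃ f' g' : K ≃ V, (∀ l, A l (f' l)) ∧ (∀ l, B l (g' l)) ∧
      ∀ l, (rho f' g').SameCycle l0 l := by
    intro m
    induction m with
    | zero =>
      intro f g hf hg hm
      refine ⟨f, g, hf, hg, fun l => ?_⟩
      have h1 : cyc l0 (rho f g) = univ := by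
        apply Finset.eq_univ_of_card
        apply le_antisymm (Finset.card_le_univ _)
        simpa using hm
      have h2 : l ∈ cyc l0 (rho f g) := by rw [h1]; exact mem_univ _
      simpa [cyc] using h2
    | succ m ih =>
      intro f g hf hg hm
      by_cases hall : ∀ l, (rho f g).SameCycle l0 l
      · exact ⟨f, g, hf, hg, hall⟩
      · push Not at hall
        obtain ⟨y0, hy0⟩ := hall
        obtain ⟨f', g', hf', hg', hlt⟩ := improve A B hAB l0 hA0 hB0 f g hf hg y0 hy0
        exact ih f' g' hf' hg' (by omega)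
  exact h (Fintype.card K) f g hf hg (by omega)

/-- The ordering obtained from a pair of matchings. -/
theorem ordering (A B : K → V → Prop) (hAB : ∀ l v, A l v ∨ B l v) (l0 : K)
    (f g : K ≃ V) (hf : ∀ l, l ≠ l0 → A l (f l)) (hg : ∀ l, l ≠ l0 → B l (g l)) (n : ℕ)
    (hn : Fintype.card K = n) :
    ∃ (p : Fin n ≃ V) (q : Fin n ≃ K), ∀ (i : ℕ) (h : i + 1 < n),
      A (q ⟨i, by omega⟩) (p ⟨i, by omega⟩) ∧ B (q ⟨i, by omega⟩) (p ⟨i + 1, h⟩) := by
  obtain ⟨f, g, hf, hg, hall⟩ := full (fun l v => l = l0 ∨ A l v) (fun l v => l = l0 ∨ B l v)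
    (fun l v => by rcases hAB l v with h | h
                   · exact Or.inl (Or.inr h)
                   · exact Or.inr (Or.inr h)) l0 (fun v => Or.inl rfl) (fun v => Or.inl rfl) f g
    (fun l => by by_cases h : l = l0
                 · exact Or.inl h
                 · exact Or.inr (hf l h))
    (fun l => by by_cases h : l = l0
                 · exact Or.inl h
                 · exact Or.inr (hg l h))
  set r := rho f g with hr
  have hcyc : r.IsCycleOn (univ : Finset K) := by
    refine ⟨by simpa using r.bijective, fun x _ y _ => (hall x).symm.trans (hall y)⟩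
  have hcard : (univ : Finset K).card = n := by rw [Finset.card_univ, hn]
  have hsurj : Function.Surjective (fun i : Fin n => (r ^ (i.1 + 1)) l0) := by
    intro k
    obtain ⟨m, hm, hmk⟩ := hcyc.exists_pow_eq (mem_univ (r l0)) (mem_univ k)
    rw [hcard] at hm
    refine ⟨⟨m, hm⟩, ?_⟩
    show (r ^ (m + 1)) l0 = k
    rw [pow_succ, Perm.mul_apply, hmk]
  have hbij : Function.Bijective (fun i : Fin n => (r ^ (i.1 + 1)) l0) := by
    rw [Fintype.bijective_iff_surjective_and_card]
    exact ⟨hsurj, by rw [Fintype.card_fin, hn]⟩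
  refine ⟨(Equiv.ofBijective _ hbij).trans f, Equiv.ofBijective _ hbij, fun i h => ?_⟩
  have hne : (r ^ (i + 1)) l0 ≠ l0 := by
    intro he
    have h1 : (r ^ n) l0 = l0 := by
      have := hcyc.pow_card_apply (mem_univ l0)
      rwa [hcard] at this
    have h2 : (fun i : Fin n => (r ^ (i.1 + 1)) l0) ⟨i, by omega⟩ =
        (fun i : Fin n => (r ^ (i.1 + 1)) l0) ⟨n - 1, by omega⟩ := by
      show (r ^ (i + 1)) l0 = (r ^ (n - 1 + 1)) l0
      rw [he, Nat.sub_add_cancel (by omega), h1]
    have h3 := congrArg Fin.val (hbij.1 h2)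
    simp only at h3
    omega
  constructor
  · have h1 := hf ((r ^ (i + 1)) l0)
    rcases h1 with h1 | h1
    · exact absurd h1 hne
    · exact h1
  · have h1 := hg ((r ^ (i + 1)) l0)
    rcases h1 with h1 | h1
    · exact absurd h1 hne
    · have h2 : f ((r ^ (i + 1 + 1)) l0) = g ((r ^ (i + 1)) l0) := by
        rw [pow_succ' r (i + 1), Perm.mul_apply, hr, f_rho]
      have h3 : B ((r ^ (i + 1)) l0) (f ((r ^ (i + 1 + 1)) l0)) := by
        rw [h2]; exact h1
      exact h3

end

section

variable {K V : Type} [Fintype K] [DecidableEq K] [Fintype V] [DecidableEq V]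

/-- The smallest set of lines with too few points on one side. -/
theorem smallest [Nonempty K] (A : K → Finset V) (h : ∀ J : Finset K, J.card ≤ (J.biUnion A).card + 1) :
    ∃ M : Finset K, (∀ J : Finset K, (J.biUnion A).card < J.card → M ⊆ J) ∧
      (M = univ ∨ (M.biUnion A).card < M.card) := by
  classical
  by_cases hex : ∃ J : Finset K, (J.biUnion A).card < J.card
  · obtain ⟨J0, hJ0⟩ := hex
    obtain ⟨M, hM, hmin⟩ := Finset.exists_min_image
      ((univ : Finset (Finset K)).filter fun J => (J.biUnion A).card < J.card) Finset.card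
      ⟨J0, by simpa using hJ0⟩
    simp only [mem_filter, mem_univ, true_and] at hM hmin
    refine ⟨M, fun J hJ => ?_, Or.inr hM⟩
    have h1 : (M ∪ J).biUnion A = M.biUnion A ∪ J.biUnion A := Finset.union_biUnion
    have h2 : (M ∩ J).biUnion A ⊆ M.biUnion A ∩ J.biUnion A := by
      intro v hv
      rw [mem_biUnion] at hv
      obtain ⟨l, hl, hv⟩ := hv
      rw [mem_inter] at hl
      rw [mem_inter, mem_biUnion, mem_biUnion]
      exact ⟨⟨l, hl.1, hv⟩, ⟨l, hl.2, hv⟩⟩
    have h3 := Finset.card_union_add_card_inter (M.biUnion A) (J.biUnion A)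
    have h4 := Finset.card_union_add_card_inter M J
    have h5 := h (M ∪ J)
    rw [h1] at h5
    have h6 := Finset.card_le_card h2
    have h7 : ((M ∩ J).biUnion A).card < (M ∩ J).card := by omega
    have h8 := hmin _ h7
    have h9 : M ∩ J = M := Finset.eq_of_subset_of_card_le Finset.inter_subset_left h8
    rw [← h9]
    exact Finset.inter_subset_right
  · push Not at hex
    exact ⟨univ, fun J hJ => absurd hJ (not_lt.2 (hex J)), Or.inl rfl⟩

/-- Hall's theorem with one unconstrained line. -/
theorem matching (A : K → Finset V) (hc : Fintype.card K = Fintype.card V) (l0 : K)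
    (h : ∀ J : Finset K, l0 ∉ J → J.card ≤ (J.biUnion A).card) :
    ∃ f : K ≃ V, ∀ l, l ≠ l0 → f l ∈ A l := by
  have hall : ∀ J : Finset K, J.card ≤ (J.biUnion fun l => if l = l0 then univ else A l).card := by
    intro J
    by_cases hJ : l0 ∈ J
    · have h1 : (J.biUnion fun l => if l = l0 then univ else A l) = univ := by
        rw [Finset.eq_univ_iff_forall]
        intro v
        rw [mem_biUnion]
        exact ⟨l0, hJ, by simp⟩
      rw [h1, Finset.card_univ, ← hc]
      exact Finset.card_le_univ _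
    · refine (h J hJ).trans (Finset.card_le_card ?_)
      intro v hv
      rw [mem_biUnion] at hv ⊢
      obtain ⟨l, hl, hv⟩ := hv
      refine ⟨l, hl, ?_⟩
      have : l ≠ l0 := fun e => hJ (e ▸ hl)
      rw [if_neg this]
      exact hv
  obtain ⟨f, hf, hfm⟩ := (Finset.all_card_le_biUnion_card_iff_exists_injective _).1 hall
  have hb : Function.Bijective f := by
    rw [Fintype.bijective_iff_injective_and_card]
    exact ⟨hf, hc⟩
  refine ⟨Equiv.ofBijective f hb, fun l hl => ?_⟩
  have := hfm l
  rw [if_neg hl] at this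
  exact this

/-- **Alternating orderings of points and bipartitions.** -/
theorem bipartitions (A : K → Finset V) (n : ℕ) (hK : Fintype.card K = n)
    (hV : Fintype.card V = n)
    (h : ∀ X : Finset V, X.card ≤
      ((univ : Finset K).filter fun l => (∃ x ∈ X, x ∈ A l) ∧ ∃ y ∈ X, y ∉ A l).card + 1) :
    ∃ (p : Fin n ≃ V) (q : Fin n ≃ K), ∀ (i : ℕ) (hi : i + 1 < n),
      p ⟨i, by omega⟩ ∈ A (q ⟨i, by omega⟩) ∧ p ⟨i + 1, hi⟩ ∉ A (q ⟨i, by omega⟩) := by
  rcases Nat.eq_zero_or_pos n with hn | hn
  · subst hn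
    refine ⟨Fintype.equivOfCardEq (by rw [Fintype.card_fin, hV]),
      Fintype.equivOfCardEq (by rw [Fintype.card_fin, hK]), fun i hi => absurd hi (by omega)⟩
  have hne : Nonempty K := Fintype.card_pos_iff.1 (by omega)
  have hbound : ∀ (X : Finset V) (J : Finset K),
      (∀ l ∈ J, ¬ ((∃ x ∈ X, x ∈ A l) ∧ ∃ y ∈ X, y ∉ A l)) → X.card + J.card ≤ n + 1 := by
    intro X J hJ
    have h1 := h X
    have h2 : ((univ : Finset K).filter fun l => (∃ x ∈ X, x ∈ A l) ∧ ∃ y ∈ X, y ∉ A l) ⊆ Jᶜ := by
      intro l hl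
      rw [mem_filter] at hl
      rw [mem_compl]
      exact fun hlJ => hJ l hlJ hl.2
    have h3 := Finset.card_le_card h2
    rw [Finset.card_compl, hK] at h3
    have h4 : J.card ≤ n := hK ▸ Finset.card_le_univ J
    omega
  have hA : ∀ J : Finset K, J.card ≤ (J.biUnion A).card + 1 := by
    intro J
    have h1 := hbound (J.biUnion A)ᶜ J (by
      rintro l hl ⟨⟨x, hx, hxl⟩, -⟩
      rw [mem_compl, mem_biUnion] at hx
      exact hx ⟨l, hl, hxl⟩)
    rw [Finset.card_compl, hV] at h1
    have h4 : (J.biUnion A).card ≤ n := hV ▸ Finset.card_le_univ _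
    omega
  have hB : ∀ J : Finset K, J.card ≤ (J.biUnion fun l => (A l)ᶜ).card + 1 := by
    intro J
    have h1 := hbound (J.biUnion fun l => (A l)ᶜ)ᶜ J (by
      rintro l hl ⟨-, ⟨x, hx, hxl⟩⟩
      rw [mem_compl, mem_biUnion] at hx
      exact hx ⟨l, hl, mem_compl.2 hxl⟩)
    rw [Finset.card_compl, hV] at h1
    have h4 : (J.biUnion fun l => (A l)ᶜ).card ≤ n := hV ▸ Finset.card_le_univ _
    omega
  obtain ⟨M, hM, hM1⟩ := smallest A hA
  obtain ⟨N, hN, hN1⟩ := smallest (fun l => (A l)ᶜ) hB
  have hMN : (M ∩ N).Nonempty := by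
    rcases hM1 with hM1 | hM1
    · rw [hM1, Finset.univ_inter]
      rcases hN1 with hN1 | hN1
      · rw [hN1]; exact Finset.univ_nonempty
      · exact Finset.card_pos.1 (by omega)
    · rcases hN1 with hN1 | hN1
      · rw [hN1, Finset.inter_univ]; exact Finset.card_pos.1 (by omega)
      · by_contra hcon
        rw [Finset.not_nonempty_iff_eq_empty] at hcon
        have h1 := hbound ((M.biUnion A) ∪ (N.biUnion fun l => (A l)ᶜ))ᶜ (M ∪ N) (by
          rintro l hl ⟨⟨x, hx, hxl⟩, ⟨y, hy, hyl⟩⟩
          rw [mem_compl, mem_union, mem_biUnion, mem_biUnion] at hx hy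
          rw [mem_union] at hl
          rcases hl with hl | hl
          · exact hx (Or.inl ⟨l, hl, hxl⟩)
          · exact hy (Or.inr ⟨l, hl, mem_compl.2 hyl⟩))
        rw [Finset.card_compl, hV, Finset.card_union_of_disjoint
          (Finset.disjoint_iff_inter_eq_empty.2 hcon)] at h1
        have h2 := Finset.card_union_le (M.biUnion A) (N.biUnion fun l => (A l)ᶜ)
        have h4 : ((M.biUnion A) ∪ (N.biUnion fun l => (A l)ᶜ)).card ≤ n :=
          hV ▸ Finset.card_le_univ _
        omega
  obtain ⟨l0, hl0⟩ := hMN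
  rw [mem_inter] at hl0
  obtain ⟨f, hf⟩ := matching A (by rw [hK, hV]) l0 (fun J hJ => by
    by_contra hcon
    exact hJ (hM J (not_le.1 hcon) hl0.1))
  obtain ⟨g, hg⟩ := matching (fun l => (A l)ᶜ) (by rw [hK, hV]) l0 (fun J hJ => by
    by_contra hcon
    exact hJ (hN J (not_le.1 hcon) hl0.2))
  exact ordering (fun l v => v ∈ A l) (fun l v => v ∉ A l) (fun l v => em _) l0 f g
    hf (fun l hl => by simpa using hg l hl) n hK

end

end Pool.Agent.Q288.Alt
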